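import Pool.Agent.H69.UZ.Q8
import Pool.Agent.H72.UZ.TarZ

/-! QE: the new system, truth in the extension. -/

set_option linter.unusedVariables false

open Ordinal Order Set
open scoped ZFSet

namespace SE.UZ

open SF

theorem pf_QE (hBJ : T_BJ) (hQ1 : T_Q1) (hQ2 : T_Q2) (hQ3 : T_Q3) (hQ4 : T_Q4) (hQ7 : T_Q7)
    (hQ8 : T_Q8) (hW0 : T_W0) (hQRN : T_QRN) (hPHA : T_PHA) : T_QE := by
  intro D κ b hA hb c hc F hF G hG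
  obtain ⟨-, q1, q2, q3, q4, -, -⟩ := hQ1 D κ b hA hb c hc
  have hN := (hBJ D hA.ok).2.2.1
  have hcl : c.l = b.l + 2 := by rw [hc]; rfl
  have hcS : ∀ k, c.S k ↔ (b.S k ∨ k = b.l) := by intro k; rw [hc]; rfl
  have hTw : ∀ ξ ∈ κ, b.Tw D κ (app F ξ) := fun ξ hξ => (q1 _).1 (hF.o ξ hξ)
  have hu : ∀ ξ ∈ κ, c.u (app F ξ) = b.ut κ (app F ξ) := fun ξ hξ => q2 _ (hTw ξ hξ)
  have hΛ : c.un κ F = (⋃₀ (imS κ fun ξ => b.ut κ (app F ξ)) : ZFSet) := by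
    unfold BS.un
    congr 1
    ext z
    rw [mem_imS, mem_imS]
    constructor
    · rintro ⟨ξ, hξ, rfl⟩
      exact ⟨ξ, hξ, (hu ξ hξ).symm⟩
    · rintro ⟨ξ, hξ, rfl⟩
      exact ⟨ξ, hξ, hu ξ hξ⟩
  have h : b.Cht D κ F (c.un κ F) G :=
    ⟨hF.n, hTw, fun ξ hξ η hη hm => (q3 _ _).1 (hF.m ξ hξ η hη hm),
      fun ξ hξ => ((q4 _ _).1 (hF.r ξ hξ)).2, hΛ, hG⟩
  obtain ⟨hCh, hun, hΛH, hCS, -, -, hWd, hEnu, hfun, hdct, -⟩ :=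
    hQ3 D κ b hA hb F (c.un κ F) G h _ rfl
  have hTr : Tr (c.un κ F) := fun i hi => (hCS.c i hi).2
  refine ⟨?_, ?_, ?_⟩
  · intro ξ hξ a x ha hx
    rw [hu ξ hξ] at ha hx
    have hT := hTw ξ hξ
    obtain ⟨w1, w2, w3, -⟩ := hW0 D κ b hA hb (app F ξ) hT
    have hsub : b.ut κ (app F ξ) ⊆ c.un κ F := by
      rw [hΛ]
      intro i hi
      rw [ZFSet.mem_sUnion]
      exact ⟨_, mem_imS.2 ⟨ξ, hξ, rfl⟩, hi⟩
    have hTs : Tr (b.ut κ (app F ξ)) := fun i hi => (w2.c i hi).2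
    obtain ⟨-, -, r3, r4, r5, -, r7, -⟩ := hQRN D hA.ok (c.un κ F) G (b.ut κ (app F ξ))
      (hN _ hΛH) hCS.c hG (hN _ w1) hsub hTs
    obtain ⟨ha1, ha2⟩ := (r4 a).1 (r3 a ha)
    obtain ⟨hx1, hx2⟩ := (r4 x).1 (r3 x hx)
    have hX : RR D (b.ut κ (app F ξ)) G (prl (kc 0) (prl a x)) := r5 _ _ (r7 0) (r5 _ _ ha hx)
    have hSe := hQ2 D κ b hA hb (app F ξ) hT (c.un κ F) (hN _ hΛH) hCS.c hsub G hG a x ha hx
    obtain ⟨h41, h42⟩ := hQ4 D κ b hA hb F (c.un κ F) G h a x ha1 ha2 hx1 hx2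
    rw [hcl, show b.l + 2 - 1 = b.l + 1 from rfl]
    rw [hc, hSe, ← hdct ξ hξ _ hX, not_iff_not]
    constructor
    · rintro ⟨v, hv1, hv2, hv3⟩
      by_contra hno
      exact hv3 (h42 (fun y hy => hno ⟨y, hy⟩) v hv1 hv2)
    · rintro ⟨y, hy⟩
      obtain ⟨-, y1, y2⟩ := Q8.enu_real hA hb hQ3 hPHA hQRN hBJ h _ _ hy
      exact ⟨y, y1, y2, h41 y hy⟩
  · intro z z' hz hz' hz1 hz1'
    have h7 := hQ7 D κ b hA hb F (c.un κ F) G h z z' hz hz' hz1 hz1'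
    have h3 := hb.l3
    rw [hcl, show b.l + 2 - 3 = b.l - 1 by omega]
    exact h7
  · intro k hk
    rcases (hcS k).1 hk with hk | hk
    · exact (hb.tru _ hCh G (by rw [hun]; exact hG)).2.2 k hk
    · rw [hk]
      exact hQ8 D κ b hA hb F (c.un κ F) G h

end SE.UZ
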