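import Pool.Agent.H45.UZ.TarA

/-! QI4: the copy is an isomorphism. -/

set_option linter.unusedVariables false

open Ordinal Order Set
open scoped ZFSet

namespace SE.UZ

open SF CAA

namespace QI4

/-- components of `mk` -/
theorem mkc (hBA : T_BA) (L e g τ u s Z : V) :
    lE (mk L e g τ u s Z) = nS 0 ∧ kd (mk L e g τ u s Z) = e ∧ tg (mk L e g τ u s Z) = g ∧
    tm (mk L e g τ u s Z) = τ ∧ vw (mk L e g τ u s Z) = u ∧ lS (mk L e g τ u s Z) = s ∧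
    lY (mk L e g τ u s Z) = sel (e = nS 3) Z (knm L s 0) ∧ lZ (mk L e g τ u s Z) = Z ∧
    lA (mk L e g τ u s Z) = knm L s 0 ∧ lB (mk L e g τ u s Z) = knm L s 0 ∧
    lG (mk L e g τ u s Z) = ZFSet.pair e (ZFSet.pair g (ZFSet.pair τ u)) := by
  obtain ⟨h1, h2, h3, h4, h5, h6, h7⟩ := hBA.1 (nS 0)
    (ZFSet.pair e (ZFSet.pair g (ZFSet.pair τ u))) s (sel (e = nS 3) Z (knm L s 0)) Z
    (knm L s 0) (knm L s 0)
  have hG : lG (mk L e g τ u s Z) = ZFSet.pair e (ZFSet.pair g (ZFSet.pair τ u)) := h2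
  refine ⟨h1, ?_, ?_, ?_, ?_, h3, h4, h5, h6, h7, hG⟩
  · unfold kd; rw [hG, fst_pair]
  · unfold tg; rw [hG, snd_pair, fst_pair]
  · unfold tm; rw [hG, snd_pair, snd_pair, fst_pair]
  · unfold vw; rw [hG, snd_pair, snd_pair, snd_pair]

theorem kct_iff {l : ℕ} {e : V} {n : ℕ} (h3 : 3 ≤ n) (hn : n ≤ l) : kct l e = nS n ↔ e = nS n := by
  unfold kct
  by_cases h : ∃ n : ℕ, 3 ≤ n ∧ n ≤ l ∧ e = nS n
  · rw [sel_pos h]
  · rw [sel_neg h]
    constructor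
    · intro h'
      have := nS_inj.1 h'
      omega
    · intro h'
      exact absurd ⟨n, h3, hn, h'⟩ h

theorem mv_empty (π : V) : mv π ∅ = ∅ := by
  unfold mv
  ext z
  rw [mem_imS]
  constructor
  · rintro ⟨x, hx, -⟩
    exact absurd hx (ZFSet.notMem_empty _)
  · intro h
    exact absurd h (ZFSet.notMem_empty _)

theorem rst_empty (s : V) : rst s ∅ = ∅ := by
  unfold rst
  ext z
  rw [ZFSet.mem_sep]
  constructor
  · rintro ⟨h, -⟩
    exact h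
  · intro h
    exact absurd h (ZFSet.notMem_empty _)

theorem mem_mvn {π Y z : V} : z ∈ mvn π Y ↔ ∃ w ∈ Y, ZFSet.pair (mv π (fst w)) (snd w) = z := by
  unfold mvn
  rw [mem_imS]

theorem ffp (hBC : T_BC) {L s q : V} (hq : q ∈ Pos L s) : FF q ∧ dm q ⊆ s :=
  ⟨((hBC.2.2.2.1 L s q).1 hq).1, ((hBC.2.2.2.1 L s q).1 hq).2.1⟩

theorem mvn_congr (hBC : T_BC) (hTBa : T_TBa) {L s π π' Y : V} (hY : Nam L s Y)
    (h : ∀ i ∈ s, app π i = app π' i) : mvn π Y = mvn π' Y := by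
  have h1 : ∀ w ∈ Y, mv π (fst w) = mv π' (fst w) := by
    intro w hw
    obtain ⟨q, hq, b, hb, rfl⟩ := hY.sub w hw
    rw [fst_pair]
    obtain ⟨f1, f2⟩ := ffp hBC hq
    exact (hTBa.2.2.2.1 π π' s h).2 q f1 f2
  ext z
  rw [mem_mvn, mem_mvn]
  constructor
  · rintro ⟨w, hw, rfl⟩
    exact ⟨w, hw, by rw [h1 w hw]⟩
  · rintro ⟨w, hw, rfl⟩
    exact ⟨w, hw, by rw [h1 w hw]⟩

theorem mvn_nam (hBD : T_BD) (hTBb : T_TBb) (hTDa : T_TDa) {L π s s' Y : V} (hc : Cld L s)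
    (hc' : Cld L s') (hI : Iso L π s s' ∅) (hY : Nam L s Y) :
    Nam L s' (mvn π Y) ∧ ∀ q ∈ Pos L s, ∀ b,
      (ZFSet.pair q b ∈ Y ↔ ZFSet.pair (mv π q) b ∈ mvn π Y) := by
  obtain ⟨-, -, -, -, t5, t6, -⟩ := hTBb L π s s' ∅ hc hc' hI
  obtain ⟨d1, d2, -⟩ := hTDa.2 L π s s' ∅ hc hc' hI Y hY
  have hle : ∀ s q, q ∈ Pos L s → Le q ∅ := fun s q hq => (hBD.2.2.2.1 L s q hq).2
  have e : mvn π Y = trn L π ∅ s s' Y := by
    ext z
    rw [mem_mvn]
    constructor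
    · rintro ⟨w, hw, rfl⟩
      obtain ⟨q, hq, b, hb, rfl⟩ := hY.sub w hw
      rw [fst_pair, snd_pair]
      exact (d2 q hq (hle _ _ hq) b).1 hw
    · intro hz
      obtain ⟨q', hq', b, hb, rfl⟩ := d1.sub z hz
      obtain ⟨q, hq, -, rfl⟩ := t6 q' hq' (by rw [mv_empty]; exact hle _ _ hq')
      exact ⟨ZFSet.pair q b, (d2 q hq (hle _ _ hq) b).2 hz, by rw [fst_pair, snd_pair]⟩
  rw [e]
  exact ⟨d1, fun q hq b => d2 q hq (hle _ _ hq) b⟩

/-- the copies of elements of `H` are in `H` -/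
theorem memH {D : Cx} (hD : D.Ok) (hBBa : T_BBa) (hBBc : T_BBc) (hBJ : T_BJ) (hBR : T_BR)
    (hd : T_QI4d) {l : ℕ} {g ζ π0 ρ0 ρ0' : V} (hN : D.N π0) (h0 : ρ0 ∈ D.H) (h0' : ρ0' ∈ D.H)
    (hm : ∀ i ∈ ρ0, app π0 i ∈ ρ0') (hg : g ∈ D.H) (hζ : ζ ∈ D.H ∨ ζ = D.H) :
    (∀ k ∈ D.H, cqy l D.L g ζ π0 ρ0 k ∈ D.H) ∧
    ∀ X ∈ D.H, cqm l D.L g ζ π0 ρ0 X ∈ D.H ∧ D.N (cqm l D.L g ζ π0 ρ0 X) := by
  have kN : ZFm D.N := hD.zfc.toZFCm.toZFm
  obtain ⟨hNL, hHt, hHN, -, -⟩ := hBJ D hD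
  obtain ⟨r1, r2, -, r4, -, -, -, -, -, r10⟩ := hBR D hD
  obtain ⟨q1, q2, q3, q4, q5, q6, -, -, q9, -⟩ := hd
  have hζN : D.N ζ := by
    rcases hζ with h | h
    · exact hHN _ h
    · rw [h]; exact hD.hN
  have hNm : ∀ X ∈ D.H, D.N (cqm l D.L g ζ π0 ρ0 X) := fun X hX =>
    (q9 l).2.1 D.N kN (cons D.L (cons g (cons ζ (cons π0 (cons ρ0 fun _ => X)))))
      (In.cons (In.cons (In.cons (In.cons (In.cons (fun _ => hHN _ hX) (hHN _ h0)) hN) hζN)
        (hHN _ hg)) hNL)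
  have hcH : ∀ X ∈ D.H, (∀ x ∈ X, cqy l D.L g ζ π0 ρ0 x ∈ D.H) →
      cqm l D.L g ζ π0 ρ0 X ∈ D.H := by
    intro X hX hx
    have hrg : rg (cqm l D.L g ζ π0 ρ0 X) ⊆ D.H := by
      intro y hy
      obtain ⟨x, hxy⟩ := mem_rg.1 hy
      unfold cqm at hxy
      obtain ⟨x', hx', he⟩ := mem_resS.1 hxy
      rw [← (ZFSet.pair_inj.1 he).2]
      exact hx x' hx'
    obtain ⟨-, h2⟩ := r2 _ X (hNm X hX) (svl_resS _ _) (dm_resS _ _) hX hrg
    have e : cqm l D.L g ζ π0 ρ0 X ∩ ZFSet.prod X (rg (cqm l D.L g ζ π0 ρ0 X)) =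
        cqm l D.L g ζ π0 ρ0 X := by
      ext z
      rw [ZFSet.mem_inter]
      refine ⟨fun h => h.1, fun h => ⟨h, ?_⟩⟩
      have h' := h
      unfold cqm at h'
      obtain ⟨x, hx, rfl⟩ := mem_resS.1 h'
      rw [ZFSet.pair_mem_prod]
      exact ⟨hx, mem_rg.2 ⟨x, h⟩⟩
    rw [e] at h2
    exact h2
  have key : ∀ α : Ordinal.{0}, ∀ k ∈ D.H, k.rank = α → cqy l D.L g ζ π0 ρ0 k ∈ D.H := by
    intro α
    induction α using WellFoundedLT.induction with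
    | ind α ih =>
      intro k hk hα
      have hlS : lS k ∈ D.H := hBBa.2.2.2.2.1.1 (· ∈ D.H) hD.zfH (fun _ => k) fun _ => hk
      have hlZ : lZ k ∈ D.H := hBBa.2.2.2.2.2.2.1.1 (· ∈ D.H) hD.zfH (fun _ => k) fun _ => hk
      have hvw : vw k ∈ D.H := q4.1 (· ∈ D.H) hD.zfH (fun _ => k) fun _ => hk
      have hkd : kd k ∈ D.H := q1.1 (· ∈ D.H) hD.zfH (fun _ => k) fun _ => hk
      have htm : tm k ∈ D.H := q3.1 (· ∈ D.H) hD.zfH (fun _ => k) fun _ => hk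
      have hU : lS k ∪ vw k ∈ D.H := (r4 _ hlS _ hvw).2.1
      have hf : cqm l D.L g ζ π0 ρ0 (lS k ∪ vw k) ∈ D.H := by
        refine hcH _ hU fun x hx => ?_
        refine ih x.rank ?_ x (hHt.mem_trans hx hU) rfl
        rw [← hα]
        exact (ZFSet.mem_union.1 hx).elim (fun h => TT.rank_lS_lt h) fun h => rank_vw_lt h
      rw [cqy_eq]
      unfold cqs
      by_cases hk0 : k ∈ ρ0
      · rw [sel_pos hk0]
        exact hHt.mem_trans (hm k hk0) h0'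
      · rw [sel_neg hk0]
        have c1 : kct l (kd k) ∈ D.H := by
          unfold kct
          by_cases h : ∃ n : ℕ, 3 ≤ n ∧ n ≤ l ∧ kd k = nS n
          · rw [sel_pos h]; exact hkd
          · rw [sel_neg h]; exact r10 0
        have c2 : ZFSet.pair g k ∈ D.H := (r4 _ hg _ hk).1
        have c3 : tct l ζ (kd k) (tm k) ∈ D.H := by
          unfold tct
          by_cases h : kd k = nS l ∧ tm k ∉ ζ
          · rw [sel_pos h]
            rcases hζ with h' | h'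
            · exact h'
            · exact absurd (h' ▸ htm) h.2
          · rw [sel_neg h]; exact htm
        have c4 : im (cqm l D.L g ζ π0 ρ0 (lS k ∪ vw k)) (vw k) ∈ D.H :=
          hBBc.2.2.2.1.1 (· ∈ D.H) hD.zfH (cons (cqm l D.L g ζ π0 ρ0 (lS k ∪ vw k)) fun _ => vw k)
            (In.cons (fun _ => hvw) hf)
        have c5 : im (cqm l D.L g ζ π0 ρ0 (lS k ∪ vw k)) (lS k) ∈ D.H :=
          hBBc.2.2.2.1.1 (· ∈ D.H) hD.zfH (cons (cqm l D.L g ζ π0 ρ0 (lS k ∪ vw k)) fun _ => lS k)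
            (In.cons (fun _ => hlS) hf)
        have c6 : mvn (cqm l D.L g ζ π0 ρ0 (lS k ∪ vw k)) (lZ k) ∈ D.H :=
          q5.1 (· ∈ D.H) hD.zfH (cons (cqm l D.L g ζ π0 ρ0 (lS k ∪ vw k)) fun _ => lZ k)
            (In.cons (fun _ => hlZ) hf)
        exact q6.1 (· ∈ D.H) hD.zfH (cons D.L (cons _ (cons _ (cons _ (cons _ (cons _
          fun _ => mvn (cqm l D.L g ζ π0 ρ0 (lS k ∪ vw k)) (lZ k)))))))
          (In.cons (In.cons (In.cons (In.cons (In.cons (In.cons (fun _ => c6) c5) c4) c3) c2) c1)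
            hD.lH)
  refine ⟨fun k hk => key _ k hk rfl, fun X hX => ⟨hcH X hX fun x hx => ?_, hNm X hX⟩⟩
  exact key _ x (hHt.mem_trans hx hX) rfl

/-- the claim of the induction at the label `i` -/
structure Cm (D : Cx) (π i : V) : Prop where
  g : Gl D.L (app π i)
  b : lS (app π i) = im π (lS i)
  y : ∀ q ∈ Pos D.L (lS i), ∀ b,
    (ZFSet.pair q b ∈ lY i ↔ ZFSet.pair (mv π q) b ∈ lY (app π i))
  z : ∀ q ∈ Pos D.L (lS i), ∀ b,
    (ZFSet.pair q b ∈ lZ i ↔ ZFSet.pair (mv π q) b ∈ lZ (app π i))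

end QI4

open QI4

theorem pf_QI4 (hBA : T_BA) (hBBa : T_BBa) (hBBc : T_BBc) (hBC : T_BC) (hBD : T_BD) (hBJ : T_BJ)
    (hBO : T_BO) (hBR : T_BR) (hTBa : T_TBa) (hTBb : T_TBb) (hTBd : T_TBd) (hTDa : T_TDa)
    (hd : T_QI4d) : T_QI4 := by
  intro D hD l S π0 ρ0 ρ0' ρ1 g ζ h3 hSl hI hC1 h01 hVw hg hFr hζ π ρ1' hπ hρ1'
  have kN : ZFm D.N := hD.zfc.toZFCm.toZFm
  obtain ⟨hNL, hHt, hHN, -, -⟩ := hBJ D hD
  have hmk := mkc hBA
  obtain ⟨-, -, -, -, -, -, hCld⟩ := hBA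
  have hTr0 : Tr ρ0 := (hCld D.L ρ0 hI.c.c).1
  have hTr1 : Tr ρ1 := (hCld D.L ρ1 hC1.c).1
  have hm0 : ∀ i ∈ ρ0, app π0 i ∈ ρ0' := fun i hi => app_mem hI.i.i.fn hi
  obtain ⟨-, hcm⟩ := memH hD hBBa hBBc hBJ hBR hd (l := l) hI.i.n hI.i.h hI.i.h' hm0 hg hζ
  have hπH : π ∈ D.H := by rw [hπ]; exact (hcm ρ1 hC1.h).1
  have hπN : D.N π := hHN _ hπH
  have hρH : ρ1' ∈ D.H := by
    rw [hρ1']
    exact hBBc.2.2.2.1.1 (· ∈ D.H) hD.zfH (cons π fun _ => ρ1) (In.cons (fun _ => hC1.h) hπH)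
  have him' : ∀ j, j ∈ ρ1' ↔ ∃ i ∈ ρ1, app π i = j := by
    rw [hρ1']
    exact hTBa.2.1 π ρ1
  -- values
  have hval : ∀ i ∈ ρ1, app π i = cqy l D.L g ζ π0 ρ0 i := by
    intro i hi
    rw [hπ]
    exact app_resS hi
  have hin : ∀ i ∈ ρ0, app π i = app π0 i := by
    intro i hi
    rw [hval i (h01 hi), cqy_eq]
    exact sel_pos hi
  have hout : ∀ i ∈ ρ1, i ∉ ρ0 → ∃ u, app π i = mk D.L (kct l (kd i)) (ZFSet.pair g i)
      (tct l ζ (kd i) (tm i)) u (im π (lS i)) (mvn π (lZ i)) ∧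
      (vw i ⊆ ρ1 → u = im π (vw i)) := by
    intro i hi hi0
    have hS : lS i ⊆ ρ1 := (hC1.c i hi).2
    have hag : ∀ k ∈ lS i ∪ vw i, k ∈ ρ1 →
        app (resS (lS i ∪ vw i) (cqy l D.L g ζ π0 ρ0)) k = app π k := by
      intro k hk hk1
      rw [app_resS hk, hval k hk1]
    have hagS : ∀ k ∈ lS i, app (resS (lS i ∪ vw i) (cqy l D.L g ζ π0 ρ0)) k = app π k :=
      fun k hk => hag k (ZFSet.mem_union.2 (Or.inl hk)) (hS hk)
    refine ⟨im (resS (lS i ∪ vw i) (cqy l D.L g ζ π0 ρ0)) (vw i), ?_, ?_⟩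
    · rw [hval i hi, cqy_eq]
      unfold cqs
      rw [sel_neg hi0, (hTBa.2.2.2.1 _ π (lS i) hagS).1,
        mvn_congr hBC hTBa (hC1.c i hi).1.z hagS]
    · intro hv
      exact (hTBa.2.2.2.1 _ π (vw i) fun k hk =>
        hag k (ZFSet.mem_union.2 (Or.inr hk)) (hv hk)).1
  have htag : ∀ i ∈ ρ1, i ∉ ρ0 → tg (app π i) = ZFSet.pair g i := by
    intro i hi hi0
    obtain ⟨u, hu, -⟩ := hout i hi hi0
    rw [hu]
    exact (hmk _ _ _ _ _ _ _).2.2.1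
  have hnot : ∀ i ∈ ρ1, i ∉ ρ0 → app π i ∉ ρ0' := fun i hi hi0 h => hFr _ h i (htag i hi hi0)
  have e1 : ZFSet.IsFunc ρ1 ρ1' π := by
    rw [hπ]
    unfold cqm
    refine isFunc_resS _ _ _ fun x hx => ?_
    exact (him' _).2 ⟨x, hx, hval x hx⟩
  have e2 : Ijo π ρ1 := by
    intro i hi j hj he
    by_cases h1 : i ∈ ρ0
    · by_cases h2 : j ∈ ρ0
      · rw [hin i h1, hin j h2] at he
        exact hI.i.i.inj i h1 j h2 he
      · exfalso
        apply hnot j hj h2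
        rw [← he, hin i h1]
        exact hm0 i h1
    · by_cases h2 : j ∈ ρ0
      · exfalso
        apply hnot i hi h1
        rw [he, hin j h2]
        exact hm0 j h2
      · have h4 := htag i hi h1
        have h5 := htag j hj h2
        rw [he, h5] at h4
        exact (ZFSet.pair_inj.1 h4).2.symm
  have e3 : ∀ j ∈ ρ1', ∃ i ∈ ρ1, app π i = j := fun j hj => (him' j).1 hj
  obtain ⟨d1, d2, d3, d4, -⟩ := hTBd π ρ1 ρ1' e1
  have hTBa2 := hTBa
  obtain ⟨a1, a2, a3, a4, -, -⟩ := hTBa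
  have hle : ∀ s q, q ∈ Pos D.L s → Le q ∅ := fun s q hq => (hBD.2.2.2.1 D.L s q hq).2
  have h0p : ∀ s, ∅ ∈ Pos D.L s := hBD.1 D.L
  have hle' : ∀ s t q, q ∈ Pos D.L s → Le q (rst t ∅) := fun s t q hq => by
    rw [rst_empty]; exact hle s q hq
  -- the restriction of `π` to a closed set
  have hres : ∀ s, s ⊆ ρ1 → Tr s → (∀ j ∈ s, Cm D π j) →
      Cld D.L (im π s) ∧ Iso D.L (rst s π) s (im π s) ∅ := by
    intro s hs ht hj
    obtain ⟨f1, f2, f3, f4⟩ := d4 s hs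
    have hmim : ∀ j, j ∈ im π s ↔ ∃ i ∈ s, app π i = j := a2 π s
    refine ⟨?_, ?_⟩
    · intro i' hi'
      obtain ⟨j, hjs, rfl⟩ := (hmim i').1 hi'
      refine ⟨(hj j hjs).g.lab, ?_⟩
      rw [(hj j hjs).b]
      intro y hy
      obtain ⟨i, hi, rfl⟩ := (a2 π (lS j) y).1 hy
      exact (hmim _).2 ⟨i, ht j hjs hi, rfl⟩
    · refine ⟨f2, f4 e2, ?_, ?_, h0p s, ?_⟩
      · intro j hjs
        obtain ⟨i, hi, rfl⟩ := (hmim j).1 hjs
        exact ⟨i, hi, f3 i hi⟩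
      · intro i hi
        rw [f3 i hi, (hj i hi).b]
        exact (a4 π (rst s π) (lS i) fun y hy => (f3 y (ht i hi hy)).symm).1
      · intro i hi q hq _ b
        obtain ⟨q1, q2⟩ := ffp hBC hq
        have e : mv (rst s π) q = mv π q :=
          ((a4 π (rst s π) (lS i) fun y hy => (f3 y (ht i hi hy)).symm).2 q q1 q2).symm
        rw [e, f3 i hi]
        exact (hj i hi).y q hq b
  have hnam : ∀ s, s ⊆ ρ1 → Tr s → (∀ j ∈ s, Cm D π j) →
      (∀ q ∈ Pos D.L s, mv π q ∈ Pos D.L (im π s)) ∧ ∀ Y, Nam D.L s Y →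
      Nam D.L (im π s) (mvn π Y) ∧ ∀ q ∈ Pos D.L s, ∀ b,
        (ZFSet.pair q b ∈ Y ↔ ZFSet.pair (mv π q) b ∈ mvn π Y) := by
    intro s hs ht hj
    obtain ⟨f1, f2, f3, f4⟩ := d4 s hs
    obtain ⟨g1, g2⟩ := hres s hs ht hj
    have hcs : Cld D.L s := (hCld D.L ρ1 hC1.c).2.2 s hs ht
    have hmv : ∀ q ∈ Pos D.L s, mv (rst s π) q = mv π q := by
      intro q hq
      obtain ⟨q1, q2⟩ := ffp hBC hq
      exact (a4 (rst s π) π s f3).2 q q1 q2
    refine ⟨fun q hq => ?_, fun Y hY => ?_⟩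
    · rw [← hmv q hq]
      exact ((hTBb D.L _ s _ ∅ hcs g1 g2).2.2.2.2.1 q hq (hle s q hq)).1
    · obtain ⟨n1, n2⟩ := mvn_nam hBD hTBb hTDa hcs g1 g2 hY
      have e : mvn (rst s π) Y = mvn π Y := mvn_congr hBC hTBa2 hY f3
      rw [e] at n1 n2
      exact ⟨n1, fun q hq b => by rw [n2 q hq b, hmv q hq]⟩
  -- the claim
  have key : ∀ α : Ordinal.{0}, ∀ i ∈ ρ1, i.rank = α → Cm D π i := by
    intro α
    induction α using WellFoundedLT.induction with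
    | ind α ih =>
      intro i hi hα
      have hsub : lS i ⊆ ρ1 := (hC1.c i hi).2
      have hLi : Lab D.L i := (hC1.c i hi).1
      have hGi : Gl D.L i := hC1.g i hi
      have hIH : ∀ j ∈ lS i, Cm D π j := fun j hj =>
        ih j.rank (hα ▸ TT.rank_lS_lt hj) j (hsub hj) rfl
      by_cases hi0 : i ∈ ρ0
      · have hal : app π i = app π0 i := hin i hi0
        have hsub0 : lS i ⊆ ρ0 := hTr0 i hi0
        have hmv : ∀ q ∈ Pos D.L (lS i), mv π q = mv π0 q := by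
          intro q hq
          obtain ⟨q1, q2⟩ := ffp hBC hq
          exact (a4 π π0 (lS i) fun y hy => hin y (hsub0 hy)).2 q q1 q2
        refine ⟨?_, ?_, ?_, ?_⟩
        · rw [hal]
          exact hI.c'.g _ (hm0 i hi0)
        · rw [hal, hI.i.i.sup i hi0]
          exact ((a4 π π0 (lS i) fun y hy => hin y (hsub0 hy)).1).symm
        · intro q hq b
          rw [hal, hmv q hq]
          exact hI.i.i.ag i hi0 q hq (hle' _ _ q hq) b
        · intro q hq b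
          rw [hal, hmv q hq]
          exact hI.z i hi0 q hq (hle' _ _ q hq) b
      · obtain ⟨u, hu, -⟩ := hout i hi hi0
        obtain ⟨c1, c2, c3, c4, c5, c6, c7, c8, c9, c10, c11⟩ := hmk D.L (kct l (kd i))
          (ZFSet.pair g i) (tct l ζ (kd i) (tm i)) u (im π (lS i)) (mvn π (lZ i))
        rw [← hu] at c1 c2 c3 c4 c5 c6 c7 c8 c9 c10 c11
        obtain ⟨g1, g2⟩ := hres (lS i) hsub hLi.tr hIH
        obtain ⟨n1, n2⟩ := hnam (lS i) hsub hLi.tr hIH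
        obtain ⟨m1, m2⟩ := n2 (lZ i) hLi.z
        have hNi : D.N i := kN.trans _ (hHN _ hC1.h) i hi
        have hNs : D.N (im π (lS i)) := by
          have h1 : D.N (lS i) := hBBa.2.2.2.2.1.1 D.N kN (fun _ => i) fun _ => hNi
          exact hBBc.2.2.2.1.1 D.N kN (cons π fun _ => lS i) (In.cons (fun _ => h1) hπN)
        have hkn : Nam D.L (im π (lS i)) (knm D.L (im π (lS i)) 0) :=
          ((hBO D hD (im π (lS i)) hNs g1).2.2.2.1 0).2.1
        have hYi : lY i = sel (kd i = nS 3) (lZ i) (knm D.L (lS i) 0) :=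
          (congrArg lY hGi.eq).trans (hmk _ _ _ _ _ _ _).2.2.2.2.2.2.1
        refine ⟨⟨⟨?_, ?_, ?_, ?_, ?_, ?_, ?_⟩, ?_, ?_⟩, c6, ?_, ?_⟩
        · rw [c1, c11, c6, c7, c8, c9, c10, hu]
          rfl
        · left
          exact c1
        · rw [c6]
          intro j hj
          exact (g1 j hj).2
        · rw [c6, c7]
          by_cases h : kct l (kd i) = nS 3
          · rw [sel_pos h]; exact m1
          · rw [sel_neg h]; exact hkn
        · rw [c6, c8]; exact m1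
        · rw [c6, c9]; exact hkn
        · rw [c6, c10]; exact hkn
        · rw [c2]
          unfold kct
          by_cases h : ∃ n : ℕ, 3 ≤ n ∧ n ≤ l ∧ kd i = nS n
          · rw [sel_pos h]; exact hGi.kd
          · rw [sel_neg h]; exact mem_om.2 ⟨0, rfl⟩
        · rw [c2, c3, c4, c5, c6, c8]; exact hu
        · intro q hq b
          rw [hYi, c7]
          by_cases h : kd i = nS 3
          · rw [sel_pos h, sel_pos ((kct_iff (le_refl 3) h3).2 h)]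
            exact m2 q hq b
          · rw [sel_neg h, sel_neg fun h' => h ((kct_iff (le_refl 3) h3).1 h')]
            unfold knm
            rw [ZFSet.mem_sep, ZFSet.mem_sep, ZFSet.pair_mem_prod, ZFSet.pair_mem_prod,
              snd_pair, snd_pair]
            constructor
            · rintro ⟨⟨-, hb⟩, hb'⟩
              exact ⟨⟨n1 q hq, hb⟩, hb'⟩
            · rintro ⟨⟨-, hb⟩, hb'⟩
              exact ⟨⟨hq, hb⟩, hb'⟩
        · intro q hq b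
          rw [c8]
          exact m2 q hq b
  have key' : ∀ i ∈ ρ1, Cm D π i := fun i hi => key _ i hi rfl
  have hC1' : CS D ρ1' := by
    refine ⟨hρH, ?_, ?_⟩
    · intro j hj
      obtain ⟨i, hi, rfl⟩ := e3 j hj
      refine ⟨(key' i hi).g.lab, ?_⟩
      rw [(key' i hi).b]
      exact (d4 (lS i) (hC1.c i hi).2).1
    · intro j hj
      obtain ⟨i, hi, rfl⟩ := e3 j hj
      exact (key' i hi).g
  have hkd : ∀ i ∈ ρ1, i ∉ ρ0 → kd (app π i) = kct l (kd i) ∧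
      tm (app π i) = tct l ζ (kd i) (tm i) ∧ (vw i ⊆ ρ1 → vw (app π i) = im π (vw i)) := by
    intro i hi hi0
    obtain ⟨u, hu, hu'⟩ := hout i hi hi0
    obtain ⟨c1, c2, c3, c4, c5, -⟩ := hmk D.L (kct l (kd i))
      (ZFSet.pair g i) (tct l ζ (kd i) (tm i)) u (im π (lS i)) (mvn π (lZ i))
    rw [← hu] at c1 c2 c3 c4 c5
    exact ⟨c2, c4, fun h => c5.trans (hu' h)⟩
  refine ⟨⟨⟨hπN, hC1.h, hρH, hC1.c, hC1'.c, ⟨e1, e2, e3, fun i hi => (key' i hi).b, h0p _,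
    fun i hi q hq _ b => (key' i hi).y q hq b⟩⟩, fun i hi q hq _ b => (key' i hi).z q hq b, hC1,
    hC1', ?_, ?_⟩, ?_, ?_, hin, ?_, ?_⟩
  · intro i hi e he hel
    by_cases hi0 : i ∈ ρ0
    · rw [hin i hi0]
      exact hI.k i hi0 e he hel
    · rw [(hkd i hi hi0).1, kct_iff he hel]
  · intro i hi e he hke
    by_cases hi0 : i ∈ ρ0
    · obtain ⟨v1, v2, v3⟩ := hI.v i hi0 e he hke
      refine ⟨fun k hk => h01 (v1 hk), ?_, ?_⟩
      · rw [hin i hi0, v2]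
        exact ((a4 π π0 (vw i) fun y hy => hin y (v1 hy)).1).symm
      · rw [hin i hi0, v3]
    · obtain ⟨k1, k2, k3⟩ := hkd i hi hi0
      have hv := hVw i hi e he hke
      refine ⟨hv, k3 hv, ?_⟩
      rw [k2]
      unfold tct
      rw [sel_neg]
      rintro ⟨h, -⟩
      rw [hke] at h
      have := nS_inj.1 h
      have := (hSl e he).2
      omega
  · intro j hj
    obtain ⟨i, hi, rfl⟩ := hI.i.i.onto j hj
    exact (him' _).2 ⟨i, h01 hi, hin i hi⟩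
  · ext z
    unfold rst
    rw [ZFSet.mem_sep]
    constructor
    · rintro ⟨hz, hz0⟩
      rw [hπ] at hz
      unfold cqm at hz
      obtain ⟨i, hi, rfl⟩ := mem_resS.1 hz
      rw [fst_pair] at hz0
      rw [← hval i hi, hin i hz0]
      exact pair_app_mem hI.i.i.fn hz0
    · intro hz
      obtain ⟨i, hi, j, hj, rfl⟩ := ZFSet.mem_prod.1 (hI.i.i.fn.1 hz)
      have hj' : j = app π0 i := (app_eq (svl_of_isFunc hI.i.i.fn) hz).symm
      rw [fst_pair]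
      refine ⟨?_, hi⟩
      rw [hj', ← hin i hi]
      exact pair_app_mem e1 (h01 hi)
  · intro j hj hj0
    obtain ⟨i, hi, rfl⟩ := e3 j hj
    exact ⟨i, hi, fun h => hj0 (by rw [hin i h]; exact hm0 i h), rfl⟩
  · intro i hi hi0
    obtain ⟨k1, k2, k3⟩ := hkd i hi hi0
    exact ⟨hnot i hi hi0, htag i hi hi0, k1, k2, k3⟩

end SE.UZ
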