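import Pool.Agent.H75.UZ.TarKO

/-! KO4: trees are decided by finite parts. -/

open Ordinal Order Set
open scoped ZFSet

namespace SE.UZ

open SF CAA

namespace KO4

theorem mem_nS {x : V} {n : ℕ} : x ∈ nS n ↔ ∃ j : ℕ, j < n ∧ x = nS j := by
  induction n with
  | zero =>
    rw [nS_zero]
    constructor
    · intro h; exact absurd h (ZFSet.notMem_empty _)
    · rintro ⟨j, hj, -⟩; omega
  | succ n ih =>
    rw [nS_succ, ZFSet.mem_insert_iff, ih]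
    constructor
    · rintro (h | ⟨j, hj, h⟩)
      · exact ⟨n, by omega, h⟩
      · exact ⟨j, by omega, h⟩
    · rintro ⟨j, hj, h⟩
      rcases Nat.lt_succ_iff_lt_or_eq.1 hj with h1 | h1
      · exact Or.inr ⟨j, h1, h⟩
      · left; rw [h, h1]

theorem mem_ins {x : V} {n : ℕ} : x ∈ (insert (nS n) (nS n) : V) ↔ ∃ j : ℕ, j ≤ n ∧ x = nS j := by
  rw [← nS_succ, mem_nS]
  constructor
  · rintro ⟨j, hj, h⟩; exact ⟨j, by omega, h⟩
  · rintro ⟨j, hj, h⟩; exact ⟨j, by omega, h⟩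

theorem mem_rsprs {x b w : V} {j n : ℕ} (hb : dm b = nS n) (hj : j ≤ n) :
    w ∈ rs (prs x b) (nS j) ↔ ∃ l : ℕ, l < j ∧
      ZFSet.pair (nS l) (ZFSet.pair (app x (nS l)) (app b (nS l))) = w := by
  unfold rs prs
  rw [ZFSet.mem_sep, mem_resS, hb]
  constructor
  · rintro ⟨⟨i, hi, rfl⟩, h2⟩
    rw [fst_pair] at h2
    obtain ⟨l, hl, rfl⟩ := mem_nS.1 h2
    exact ⟨l, hl, rfl⟩
  · rintro ⟨l, hl, rfl⟩
    refine ⟨⟨nS l, mem_nS.2 ⟨l, by omega, rfl⟩, rfl⟩, ?_⟩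
    rw [fst_pair]
    exact mem_nS.2 ⟨l, hl, rfl⟩

theorem rsprs_congr {x x' b b' : V} {j n n' : ℕ} (hb : dm b = nS n) (hb' : dm b' = nS n')
    (hj : j ≤ n) (hj' : j ≤ n') (hx : ∀ l < j, app x (nS l) = app x' (nS l))
    (hbb : ∀ l < j, app b (nS l) = app b' (nS l)) :
    rs (prs x b) (nS j) = rs (prs x' b') (nS j) := by
  ext w
  rw [mem_rsprs hb hj, mem_rsprs hb' hj']
  constructor
  · rintro ⟨l, hl, h⟩; exact ⟨l, hl, by rw [← hx l hl, ← hbb l hl]; exact h⟩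
  · rintro ⟨l, hl, h⟩; exact ⟨l, hl, by rw [hx l hl, hbb l hl]; exact h⟩

end KO4

open KO4

theorem pf_KO4 (hF : T_AF) (hG : T_AG) (hH : T_AH) : T_KO4 := by
  refine ⟨?_, ?_, ?_⟩
  · intro a z _ _ b c hE hb
    unfold EO at hE
    rw [ZFSet.mem_sep, ZFSet.pair_mem_prod, fst_pair, snd_pair] at hE
    obtain ⟨⟨hbs, hcs⟩, hcb, -⟩ := hE
    obtain ⟨k, hk⟩ := (hF.1 b).1 hbs
    obtain ⟨n, hn⟩ := (hF.1 c).1 hcs
    have db := (hF.2.2.2.2.1 k b hk).2.2.1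
    have dc := (hF.2.2.2.2.1 n c hn).2.2.1
    obtain ⟨hnk, happ⟩ := (hF.2.2.2.2.2.2.1 n c k b hn hk).1 hcb
    unfold TO at hb ⊢
    rw [ZFSet.mem_sep] at hb ⊢
    refine ⟨hcs, ?_⟩
    intro m hm
    rw [dc] at hm
    obtain ⟨j, hj, rfl⟩ := mem_ins.1 hm
    rw [rsprs_congr (x' := z) (b' := b) dc db hj (hj.trans hnk) (fun l _ => rfl)
      (fun l hl => happ l (by omega))]
    apply hb.2
    rw [db]
    exact mem_ins.2 ⟨j, hj.trans hnk, rfl⟩
  · intro a x y x' y' k b _ hx hy hx' hy' hb h1 h2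
    have db := (hF.2.2.2.2.1 k b hb).2.2.1
    have hap : ∀ (u u' : V), Rl u → Rl u' → rs u' (nS k) = rs u (nS k) → ∀ l < k,
        app u' (nS l) = app u (nS l) := by
      intro u u' hu hu' h l hl
      rw [← ((hG.1 u' hu').2.2.1 k).2.2.2 l hl, ← ((hG.1 u hu).2.2.1 k).2.2.2 l hl, h]
    have key : ∀ j ≤ k, rs (prs (prl x' y') b) (nS j) = rs (prs (prl x y) b) (nS j) := by
      intro j hj
      refine rsprs_congr db db hj hj ?_ (fun l _ => rfl)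
      intro l hl
      rw [(hH.1 x' y' hx' hy').2 l, (hH.1 x y hx hy).2 l, hap x x' hx hx' h1 l (by omega),
        hap y y' hy hy' h2 l (by omega)]
    unfold TO
    rw [ZFSet.mem_sep, ZFSet.mem_sep]
    constructor
    · rintro ⟨h3, h4⟩
      refine ⟨h3, fun m hm => ?_⟩
      have h5 := h4 m hm
      rw [db] at hm
      obtain ⟨j, hj, rfl⟩ := mem_ins.1 hm
      rwa [key j hj] at h5
    · rintro ⟨h3, h4⟩
      refine ⟨h3, fun m hm => ?_⟩
      have h5 := h4 m hm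
      rw [db] at hm
      obtain ⟨j, hj, rfl⟩ := mem_ins.1 hm
      rwa [← key j hj] at h5
  · intro b hb hne
    unfold EO
    rw [ZFSet.mem_sep, ZFSet.pair_mem_prod, fst_pair, snd_pair]
    refine ⟨⟨hb, (hF.1 ∅).2 ⟨0, hF.2.1⟩⟩, ?_, hne⟩
    intro w hw
    exact absurd hw (ZFSet.notMem_empty _)

end SE.UZ
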