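import Pool.Agent.H72.UZ.TarY
import Pool.Agent.H45.UZ.TarP
import Pool.Agent.H1.UZ.TarPC

/-! Q8: uniformization at the level `l`. -/

set_option linter.unusedVariables false

open Ordinal Order Set
open scoped ZFSet

namespace SE.UZ

open SF

namespace Q8

/-- entries are reals of the extension -/
theorem enu_real {D : Cx} {κ : V} {b : BS} (hA : Amb D κ) (hb : b.Ok D κ) (hQ3 : T_Q3)
    (hPHA : T_PHA) (hQRN : T_QRN) (hBJ : T_BJ) {F Λ G : V} (h : b.Cht D κ F Λ G) :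
    ∀ X y, Enu κ F G X y → (D.W G X ∧ Rl X) ∧ D.W G y ∧ Rl y := by
  intro X y he
  obtain ⟨-, hun, hΛH, hCS, -, -, hWd, hEnu, -⟩ := hQ3 D κ b hA hb F Λ G h _ rfl
  obtain ⟨ξ, hξ, e, he⟩ := (hEnu X y).1 he
  have hN := (hBJ D hA.ok).2.2.1
  have hw := hWd ξ hξ
  rw [BS.Wd] at hw
  have hac : app (resS κ (fun ξ => tK (app F ξ) ξ)) ξ = tK (app F ξ) ξ := app_resS hξ
  rw [hac] at hw
  have hO := hw.wo.o.o
  have hc := hb.cs _ hO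
  have hsub : b.u (tK (app F ξ) ξ) ⊆ Λ := by
    rw [← hun]
    intro i hi
    unfold BS.un
    rw [ZFSet.mem_sUnion]
    refine ⟨b.u (tK (app F ξ) ξ), ?_, hi⟩
    rw [mem_imS]
    exact ⟨ξ, hξ, by rw [hac]⟩
  have hp := ((hPHA D hA.ok (b.u (tK (app F ξ) ξ)) Λ _ _ (hN _ hc.h) hc.c (hN _ hΛH) hCS.c hsub
    hw.wo.hs).1 G h.g).1 X y e
  obtain ⟨hX, hy, -⟩ := hp.2 he
  have hTr : Tr (b.u (tK (app F ξ) ξ)) := fun i hi => (hc.c i hi).2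
  obtain ⟨-, -, h3, h4, -⟩ := hQRN D hA.ok Λ G (b.u (tK (app F ξ) ξ)) (hN _ hΛH) hCS.c h.g
    (hN _ hc.h) hsub hTr
  exact ⟨(h4 X).1 (h3 X hX), (h4 y).1 (h3 y hy)⟩

end Q8

open Q8

theorem pf_Q8 (hBJ : T_BJ) (hQ3 : T_Q3) (hQ4 : T_Q4) (hQ5 : T_Q5) (hPCH : T_PCH) (hPHA : T_PHA)
    (hQRN : T_QRN) : T_Q8 := by
  intro D κ b hA hb F Λ G h
  obtain ⟨-, hun, hΛH, hCS, -, -, hWd, hEnu, hfun, -⟩ := hQ3 D κ b hA hb F Λ G h _ rfl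
  have hN := (hBJ D hA.ok).2.2.1
  have hZ : ZFC (D.W G) := (((hBJ D hA.ok).2.2.2.2 Λ (hN _ hΛH) hCS.c).2 G h.g).1.1
  have hTr : Tr Λ := fun i hi => (hCS.c i hi).2
  obtain ⟨-, -, -, h4, h5, -, h7, -⟩ := hQRN D hA.ok Λ G Λ (hN _ hΛH) hCS.c h.g
    (hN _ hΛH) (fun _ hx => hx) hTr
  have hX : ∀ a x, D.W G a → Rl a → D.W G x → Rl x →
      D.W G (prl (kc 0) (prl a x)) ∧ Rl (prl (kc 0) (prl a x)) := by
    intro a x ha ha' hx hx'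
    exact (h4 _).1 (h5 _ _ (h7 0) (h5 _ _ ((h4 a).2 ⟨ha, ha'⟩) ((h4 x).2 ⟨hx, hx'⟩)))
  have hl : b.l - 3 + 3 = b.l := Nat.sub_add_cancel hb.l3
  have key := hPCH (D.W G) hZ.toZFCm.toZFm D.L (hA.cmx Λ (hN _ hΛH) hCS.c G h.g) (b.l - 3)
    (fun a x y => Enu κ F G (prl (kc 0) (prl a x)) y)
    (fun a x y y' _ _ _ _ _ _ _ _ he he' => hfun _ _ _ he he')
    (fun a x y ha ha' hx hx' _ _ he => by
      rw [hl]
      exact (hQ4 D κ b hA hb F Λ G h a x ha ha' hx hx').1 y he)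
    (fun a x ha ha' hx hx' hno y hy hy' => by
      rw [hl]
      refine (hQ4 D κ b hA hb F Λ G h a x ha ha' hx hx').2 (fun y he => ?_) y hy hy'
      obtain ⟨-, h1, h2⟩ := enu_real hA hb hQ3 hPHA hQRN hBJ h _ _ he
      exact hno y h1 h2 he)
    (fun a x y ha ha' hx hx' hy hy' => by
      obtain ⟨h1, h2⟩ := hX a x ha ha' hx hx'
      exact hQ5 D κ b hA hb F Λ G h _ y h1 h2 hy hy')
  rw [hl] at key
  exact key

end SE.UZ
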