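import Pool.Agent.H45.UZ.TarA

/-! QI3e: extensions of generic filters and isomorphisms. -/

open Ordinal Order Set
open scoped ZFSet

namespace SE.UZ

open SF CAA

theorem pf_QI3e (h1 : T_QI1) (h3 : T_QI3) : T_QI3e := by
  intro D hD l S π ρ ρ' hS hI s hNs hsρ hTs hVs G0 hG0 G' hG' hgs
  obtain ⟨⟨-, -, -, -, hii, -, hinv⟩, -, -, -, h5⟩ := h1 D hD l S π ρ ρ' hS hI
  obtain ⟨hIs, -, hsub, him, hri, -⟩ := h5 s hNs hsρ hTs hVs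
  obtain ⟨a1, -, -, -, -, a6⟩ := h3 D hD l S (inv π) ρ' ρ hS hinv G' hG' _ rfl
  obtain ⟨-, -, -, -, -, b6⟩ := h3 D hD l S π ρ ρ' hS hI _ a1 _ rfl
  have hTr : Tr (im π s) := (b6 s hNs hsρ hTs).1
  have hNim : D.N (im π s) := hD.zfc.toZFCm.toZFm.trans _ hD.hN _ hIs.i.h'
  have e1 := (a6 (im π s) hNim hsub hTr).2.1
  rw [him, ← hri, hgs] at e1
  obtain ⟨-, -, c3, -⟩ := h3 D hD l S (rst s π) s (im π s) hS hIs G0 hG0 _ rfl
  rw [e1]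
  exact c3

end SE.UZ
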